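import Pool.Agent.BEH.Stmts

/-! Squad BEH, module DUA: the energy of a function equal to `- lc f c` on the holes. -/

namespace Pool.Agent.BEH.H89

open Set Filter Topology MeasureTheory
open scoped InnerProductSpace ENNReal
open Pool.Agent.BE01 Pool.Agent.BEL

variable {d : ℕ}

theorem grad_cont {ψ : En d → ℝ} (h : ContDiff ℝ ((⊤ : ℕ∞) : WithTop ℕ∞) ψ) :
    Continuous (gradient ψ) :=
  (InnerProductSpace.toDual ℝ (En d)).symm.continuous.comp (h.continuous_fderiv (by simp))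

theorem out_norm {x y : En d} {R : ℝ} (hy : y ∉ Metric.closedBall x R) : R ≤ ‖y - x‖ := by
  rw [Metric.mem_closedBall, dist_eq_norm, not_le] at hy
  exact hy.le

theorem grad_zero {ψ : En d → ℝ} {x : En d} {R : ℝ} (h : ∀ y, R ≤ ‖y - x‖ → ψ y = 0) (y : En d)
    (hy : y ∉ Metric.closedBall x R) : gradient ψ y = 0 := by
  have h1 : ψ =ᶠ[𝓝 y] fun _ => 0 := by
    filter_upwards [Metric.isClosed_closedBall.isOpen_compl.mem_nhds hy] with z hz
    exact h z (out_norm hz)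
  have h2 : gradient ψ y = (InnerProductSpace.toDual ℝ (En d)).symm (fderiv ℝ ψ y) := rfl
  rw [h2, h1.fderiv_eq, fderiv_const_apply, map_zero]

theorem memLp_cs {E : Type*} [NormedAddCommGroup E] {u : En d → E} {x : En d} {R : ℝ}
    (hc : Continuous u) (h : ∀ y, y ∉ Metric.closedBall x R → u y = 0) (Ω : Set (En d)) :
    MemLp u 2 (mu Ω) := by
  have h1 : HasCompactSupport u := HasCompactSupport.intro (isCompact_closedBall x R) h
  have h2 : MemLp u 2 (volume : Measure (En d)) := hc.memLp_of_hasCompactSupport h1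
  exact h2.restrict Ω

theorem dens {Ω : Set (En d)} (L : VV Ω →L[ℝ] ℝ)
    (h : ∀ ψ, Tst Ω ψ → ∀ G : VV Ω, (G : Lp (En d) 2 (mu Ω)) =ᵐ[mu Ω] gradient ψ → L G = 0)
    (G : VV Ω) : L G = 0 := by
  have hcl : IsClosed ((VV Ω : Submodule ℝ (Lp (En d) 2 (mu Ω))) : Set (Lp (En d) 2 (mu Ω))) :=
    Submodule.isClosed_topologicalClosure _
  obtain ⟨K, hKd⟩ : ∃ K : Submodule ℝ (Lp (En d) 2 (mu Ω)),
    K = (LinearMap.ker (L : VV Ω →ₗ[ℝ] ℝ)).map (VV Ω).subtype := ⟨_, rfl⟩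
  have hK : IsClosed (K : Set (Lp (En d) 2 (mu Ω))) := by
    rw [hKd, Submodule.map_coe]
    exact hcl.isClosedEmbedding_subtypeVal.isClosedMap _ (ContinuousLinearMap.isClosed_ker L)
  have hs : {G : Lp (En d) 2 (mu Ω) | ∃ ψ, Tst Ω ψ ∧ G =ᵐ[mu Ω] gradient ψ} ⊆ K := by
    rintro G0 ⟨ψ, hψ, hG0⟩
    have hm : G0 ∈ VV Ω :=
      Submodule.le_topologicalClosure _ (Submodule.subset_span ⟨ψ, hψ, hG0⟩)
    rw [hKd]
    exact ⟨⟨G0, hm⟩, h ψ hψ ⟨G0, hm⟩ hG0, rfl⟩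
  have hle : VV Ω ≤ K := Submodule.topologicalClosure_minimal _ (Submodule.span_le.2 hs) hK
  have h1 := hle G.2
  rw [hKd] at h1
  obtain ⟨y, hy, hy2⟩ := h1
  have h3 : y = G := Subtype.ext hy2
  rw [← h3]
  exact hy

theorem q_zero {x : En d} {R D γ r : ℝ} {ψ g h : En d → ℝ} (hF : Fld x R D γ r ψ g h)
    (hr : r < R) (y : En d) (hy : y ∉ Metric.closedBall x R) : g y - h y = 0 := by
  rw [hF.g_supp y (hr.le.trans (out_norm hy)), hF.h_supp y (out_norm hy), sub_zero]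

/-- The weak equation of the potential holds on the whole space `VV Ω`. -/
theorem pot {Ω : Set (En d)} (ι : VV Ω →L[ℝ] Lp ℝ 2 (mu Ω)) (hE : Emb2 Ω ι) {x : En d}
    {R D γ r : ℝ} {ψ g h : En d → ℝ} (hF : Fld x R D γ r ψ g h) (hr : r < R)
    (hsub : Metric.closedBall x R ⊆ Ω) (hP : MemLp (gradient ψ) 2 (mu Ω))
    (hQ : MemLp (fun y => g y - h y) 2 (mu Ω)) (W : VV Ω) :
    ⟪hP.toLp _, (W : Lp (En d) 2 (mu Ω))⟫_ℝ = ⟪hQ.toLp _, ι W⟫_ℝ := by
  obtain ⟨L, hL⟩ : ∃ L : VV Ω →L[ℝ] ℝ, ∀ G : VV Ω,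
      L G = ⟪hP.toLp _, (G : Lp (En d) 2 (mu Ω))⟫_ℝ - ⟪hQ.toLp _, ι G⟫_ℝ :=
    ⟨(innerSL ℝ (hP.toLp _)).comp (VV Ω).subtypeL - (innerSL ℝ (hQ.toLp _)).comp ι, fun G => rfl⟩
  have h1 : L W = 0 := by
    refine dens L ?_ W
    intro φ hφ G hG
    rw [hL, sub_eq_zero, L2.inner_def, L2.inner_def]
    have e1 : ∫ y, ⟪(hP.toLp _ : Lp (En d) 2 (mu Ω)) y, (G : Lp (En d) 2 (mu Ω)) y⟫_ℝ ∂(mu Ω) =
        ∫ y, ⟪gradient φ y, gradient ψ y⟫_ℝ ∂(mu Ω) := by
      refine integral_congr_ae ?_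
      filter_upwards [hP.coeFn_toLp, hG] with y hy1 hy2
      rw [hy1, hy2, real_inner_comm]
    have e2 : ∫ y, ⟪(hQ.toLp _ : Lp ℝ 2 (mu Ω)) y, ι G y⟫_ℝ ∂(mu Ω) =
        ∫ y, φ y * (g y - h y) ∂(mu Ω) := by
      refine integral_congr_ae ?_
      filter_upwards [hQ.coeFn_toLp, hE φ hφ G hG] with y hy1 hy2
      rw [hy1, hy2]
      rfl
    rw [e1, e2]
    have e3 : ∫ y, ⟪gradient φ y, gradient ψ y⟫_ℝ ∂(mu Ω) = ∫ y, ⟪gradient φ y, gradient ψ y⟫_ℝ :=
      setIntegral_eq_integral_of_forall_compl_eq_zero fun y hy => by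
        rw [grad_zero hF.supp y fun h => hy (hsub h), inner_zero_right]
    have e4 : ∫ y, φ y * (g y - h y) ∂(mu Ω) = ∫ y, φ y * (g y - h y) :=
      setIntegral_eq_integral_of_forall_compl_eq_zero fun y hy => by
        rw [q_zero hF hr y fun h => hy (hsub h), mul_zero]
    rw [e3, e4]
    exact hF.lap φ hφ.1 hφ.2.1
  rw [hL] at h1
  exact sub_eq_zero.1 h1

/-- The charge `g` against a linear combination. -/
theorem charge {N : ℕ} {B : ℝ} {f : Fin N → En d → ℝ} (hB : ∀ i, Bm B (f i)) {x : En d}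
    {R κ : ℝ} {g : En d → ℝ} (hg : Continuous g) (hgz : ∀ y, y ∉ Metric.closedBall x R → g y = 0)
    (hv : ∀ i, |(∫ y, f i y * g y) - f i x| ≤ κ) (c : Fin N → ℝ) :
    |(∫ y, lc f c y * g y) - lc f c x| ≤ κ * ∑ i, |c i| := by
  have hgi : Integrable g (volume : Measure (En d)) :=
    hg.integrable_of_hasCompactSupport (HasCompactSupport.intro (isCompact_closedBall x R) hgz)
  have hfg : ∀ i, Integrable (fun y => f i y * g y) (volume : Measure (En d)) := fun i =>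
    hgi.bdd_mul (c := B) (hB i).1.aestronglyMeasurable
      (Eventually.of_forall fun y => by rw [Real.norm_eq_abs]; exact (hB i).2 y)
  have e1 : ∫ y, lc f c y * g y = ∑ i, c i * ∫ y, f i y * g y := by
    have e2 : ∀ y, lc f c y * g y = ∑ i, c i * (f i y * g y) := fun y => by
      unfold lc
      rw [Finset.sum_mul]
      exact Finset.sum_congr rfl fun i _ => by ring
    simp_rw [e2]
    rw [integral_finsetSum _ fun i _ => (hfg i).const_mul (c i)]
    exact Finset.sum_congr rfl fun i _ => integral_const_mul _ _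
  rw [e1]
  unfold lc
  rw [← Finset.sum_sub_distrib, Finset.mul_sum]
  refine (Finset.abs_sum_le_sum_abs _ _).trans (Finset.sum_le_sum fun i _ => ?_)
  rw [← mul_sub, abs_mul, mul_comm]
  exact mul_le_mul_of_nonneg_right (hv i) (abs_nonneg _)

theorem dua : DuaStmt := by
  intro d Ω ι N J B f x w R D κ ε r η ψ g h W c S T hΩ hE hB hD hκ hε hS hW hSd hTd
  have hfin : IsFiniteMeasure (mu Ω) := ⟨by
    have h1 : mu Ω univ = volume Ω := by simp [mu]
    rw [h1]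
    exact hΩ.2.1.measure_lt_top⟩
  have hP : ∀ j, MemLp (gradient (ψ j)) 2 (mu Ω) := fun j =>
    memLp_cs (grad_cont (hS.fld j).smooth) (grad_zero (hS.fld j).supp) Ω
  have hgz : ∀ j y, y ∉ Metric.closedBall (x j) R → g j y = 0 := fun j y hy =>
    (hS.fld j).g_supp y ((hS.r_pos j).2.le.trans (out_norm hy))
  have hhz : ∀ j y, y ∉ Metric.closedBall (x j) R → h j y = 0 := fun j y hy =>
    (hS.fld j).h_supp y (out_norm hy)
  have hg : ∀ j, MemLp (g j) 2 (mu Ω) := fun j => memLp_cs (hS.fld j).g_cont (hgz j) Ω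
  have hh : ∀ j, MemLp (h j) 2 (mu Ω) := fun j => memLp_cs (hS.fld j).h_cont (hhz j) Ω
  have hQ : ∀ j, MemLp (fun y => g j y - h j y) 2 (mu Ω) := fun j => (hg j).sub (hh j)
  have hιW : MemLp (ι W) 2 (mu Ω) := Lp.memLp (ι W)
  obtain ⟨P, hPd⟩ : ∃ P : Fin J → Lp (En d) 2 (mu Ω), ∀ j, P j = (hP j).toLp _ :=
    ⟨fun j => (hP j).toLp _, fun j => rfl⟩
  obtain ⟨A, hA⟩ : ∃ A : ℝ, A = κ * ∑ i, |c i| := ⟨_, rfl⟩
  obtain ⟨A', hA'⟩ : ∃ A' : ℝ, A' = D * Real.sqrt (volume.real Ω) * ‖ι W‖ := ⟨_, rfl⟩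
  -- the functional of one potential
  have hone : ∀ j, |⟪P j, (W : Lp (En d) 2 (mu Ω))⟫_ℝ + lc f c (x j)| ≤ A + A' := by
    intro j
    have e1 : ⟪P j, (W : Lp (En d) 2 (mu Ω))⟫_ℝ = ⟪(hQ j).toLp _, ι W⟫_ℝ := by
      rw [hPd]
      exact pot ι hE (hS.fld j) (hS.r_pos j).2 (hS.sub j) (hP j) (hQ j) W
    have e2 : (hQ j).toLp _ = (hg j).toLp _ - (hh j).toLp _ := (hg j).toLp_sub (hh j)
    have e3 : ⟪(hg j).toLp _, ι W⟫_ℝ = -∫ y, lc f c y * g j y := by
      rw [L2.inner_def]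
      have e4 : ∫ y, ⟪((hg j).toLp _ : Lp ℝ 2 (mu Ω)) y, ι W y⟫_ℝ ∂(mu Ω) =
          ∫ y, -(lc f c y * g j y) ∂(mu Ω) := by
        refine integral_congr_ae ?_
        filter_upwards [(hg j).coeFn_toLp, hW j] with y hy1 hy2
        rw [hy1]
        have e5 : ⟪g j y, ι W y⟫_ℝ = ι W y * g j y := rfl
        rw [e5]
        by_cases hy : ‖y - x j‖ ≤ r j
        · rw [hy2 hy, neg_mul]
        · rw [(hS.fld j).g_supp y (not_le.1 hy).le, mul_zero, mul_zero, neg_zero]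
      rw [e4, ← integral_neg]
      exact setIntegral_eq_integral_of_forall_compl_eq_zero fun y hy => by
        rw [hgz j y fun h => hy (hS.sub j h), mul_zero, neg_zero]
    have e6 : |(∫ y, lc f c y * g j y) - lc f c (x j)| ≤ A := by
      rw [hA]
      exact charge hB (hS.fld j).g_cont (hgz j) (hS.val j) c
    have e7 : |⟪(hh j).toLp _, ι W⟫_ℝ| ≤ A' := by
      refine (abs_real_inner_le_norm _ _).trans ?_
      rw [hA']
      refine mul_le_mul_of_nonneg_right ?_ (norm_nonneg _)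
      have e8 : ‖((hh j).toLp _ : Lp ℝ 2 (mu Ω))‖ ^ 2 ≤ D ^ 2 * volume.real Ω := by
        rw [← real_inner_self_eq_norm_sq, L2.inner_def]
        have e9 : ∫ y, ⟪((hh j).toLp _ : Lp ℝ 2 (mu Ω)) y, ((hh j).toLp _ : Lp ℝ 2 (mu Ω)) y⟫_ℝ
            ∂(mu Ω) = ∫ y, h j y ^ 2 ∂(mu Ω) := by
          refine integral_congr_ae ?_
          filter_upwards [(hh j).coeFn_toLp] with y hy
          rw [hy, real_inner_self_eq_norm_sq, Real.norm_eq_abs, sq_abs]
        have e10 : ∫ y, h j y ^ 2 ∂(mu Ω) ≤ ∫ y, D ^ 2 ∂(mu Ω) := by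
          refine integral_mono (hh j).integrable_sq (integrable_const _) fun y => ?_
          exact pow_le_pow_left₀ ((hS.fld j).h_le y).1 ((hS.fld j).h_le y).2 2
        rw [e9]
        refine e10.trans (le_of_eq ?_)
        rw [integral_const, smul_eq_mul, mul_comm]
        simp [mu, Measure.real]
      have e11 : D ^ 2 * volume.real Ω = (D * Real.sqrt (volume.real Ω)) ^ 2 := by
        rw [mul_pow, Real.sq_sqrt measureReal_nonneg]
      rw [e11] at e8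
      exact (sq_le_sq₀ (norm_nonneg _) (mul_nonneg hD.le (Real.sqrt_nonneg _))).1 e8
    rw [e1, e2, inner_sub_left, e3]
    rw [abs_le] at e6 e7 ⊢
    constructor <;> linarith [e6.1, e6.2, e7.1, e7.2]
  -- the potentials are orthogonal
  have hort : ∀ i j, i ≠ j → ⟪P i, P j⟫_ℝ = 0 := by
    intro i j hij
    rw [L2.inner_def, hPd, hPd]
    have e1 : ∫ y, ⟪((hP i).toLp _ : Lp (En d) 2 (mu Ω)) y,
        ((hP j).toLp _ : Lp (En d) 2 (mu Ω)) y⟫_ℝ ∂(mu Ω) = ∫ y, (0 : ℝ) ∂(mu Ω) := by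
      refine integral_congr_ae ?_
      filter_upwards [(hP i).coeFn_toLp, (hP j).coeFn_toLp] with y hy1 hy2
      rw [hy1, hy2]
      by_cases hy : y ∈ Metric.closedBall (x i) R
      · rw [grad_zero (hS.fld j).supp y fun h => Set.disjoint_left.1 (hS.dis i j hij) hy h,
          inner_zero_right]
      · rw [grad_zero (hS.fld i).supp y hy, inner_zero_left]
    rw [e1, integral_zero]
  have hnrm : ∀ j, ⟪P j, P j⟫_ℝ ≤ 2 / (ε * w j) := by
    intro j
    rw [L2.inner_def, hPd]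
    have e1 : ∫ y, ⟪((hP j).toLp _ : Lp (En d) 2 (mu Ω)) y,
        ((hP j).toLp _ : Lp (En d) 2 (mu Ω)) y⟫_ℝ ∂(mu Ω) =
        ∫ y, ‖gradient (ψ j) y‖ ^ 2 ∂(mu Ω) := by
      refine integral_congr_ae ?_
      filter_upwards [(hP j).coeFn_toLp] with y hy1
      rw [hy1, real_inner_self_eq_norm_sq]
    have e2 : ∫ y, ‖gradient (ψ j) y‖ ^ 2 ∂(mu Ω) = ∫ y, ‖gradient (ψ j) y‖ ^ 2 :=
      setIntegral_eq_integral_of_forall_compl_eq_zero fun y hy => by
        rw [grad_zero (hS.fld j).supp y fun h => hy (hS.sub j h), norm_zero]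
        norm_num
    rw [e1, e2]
    exact (hS.fld j).en
  -- the combination
  obtain ⟨a, ha⟩ : ∃ a : Fin J → ℝ, ∀ j, a j = w j * lc f c (x j) := ⟨_, fun j => rfl⟩
  obtain ⟨Q, hQd⟩ : ∃ Q : Lp (En d) 2 (mu Ω), Q = ∑ j, a j • P j := ⟨_, rfl⟩
  have hQW : S - T ≤ -⟪Q, (W : Lp (En d) 2 (mu Ω))⟫_ℝ := by
    have e1 : ⟪Q, (W : Lp (En d) 2 (mu Ω))⟫_ℝ =
        ∑ j, a j * ⟪P j, (W : Lp (En d) 2 (mu Ω))⟫_ℝ := by
      rw [hQd, sum_inner]
      exact Finset.sum_congr rfl fun j _ => real_inner_smul_left _ _ _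
    rw [e1, hSd, hTd, ← hA, ← hA', Finset.sum_mul, ← Finset.sum_sub_distrib,
      ← Finset.sum_neg_distrib]
    refine Finset.sum_le_sum fun j _ => ?_
    have e2 := hone j
    have e3 : |a j * (⟪P j, (W : Lp (En d) 2 (mu Ω))⟫_ℝ + lc f c (x j))| ≤
        w j * |lc f c (x j)| * (A + A') := by
      rw [abs_mul, ha, abs_mul, abs_of_pos (hS.w_pos j)]
      exact mul_le_mul_of_nonneg_left e2 (mul_nonneg (hS.w_pos j).le (abs_nonneg _))
    have e4 : a j * lc f c (x j) = w j * lc f c (x j) ^ 2 := by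
      rw [ha]
      ring
    have e5 := (abs_le.1 e3).2
    rw [mul_add, e4] at e5
    linarith
  have hQQ : ‖Q‖ ^ 2 ≤ 2 * S / ε := by
    have e1 : ‖Q‖ ^ 2 = ∑ j, a j * (a j * ⟪P j, P j⟫_ℝ) := by
      rw [← real_inner_self_eq_norm_sq, hQd, sum_inner]
      refine Finset.sum_congr rfl fun j _ => ?_
      rw [real_inner_smul_left, inner_sum]
      congr 1
      rw [Finset.sum_eq_single j]
      · rw [real_inner_smul_right]
      · intro i _ hij
        rw [real_inner_smul_right, hort j i (Ne.symm hij), mul_zero]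
      · intro h
        exact absurd (Finset.mem_univ j) h
    rw [e1, hSd, Finset.mul_sum, Finset.sum_div]
    refine Finset.sum_le_sum fun j _ => ?_
    have e2 : a j * (a j * ⟪P j, P j⟫_ℝ) = a j ^ 2 * ⟪P j, P j⟫_ℝ := by ring
    rw [e2]
    refine (mul_le_mul_of_nonneg_left (hnrm j) (sq_nonneg _)).trans (le_of_eq ?_)
    rw [ha]
    have := (hS.w_pos j).ne'
    field_simp
  have hQl : ‖Q‖ ≤ Real.sqrt (2 * S / ε) := Real.le_sqrt_of_sq_le hQQ
  have h1 := (abs_le.1 (abs_real_inner_le_norm Q (W : Lp (En d) 2 (mu Ω)))).1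
  have h2 : ‖(W : Lp (En d) 2 (mu Ω))‖ = ‖W‖ := rfl
  rw [h2] at h1
  have h3 := mul_le_mul_of_nonneg_right hQl (norm_nonneg W)
  linarith

end Pool.Agent.BEH.H89
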